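import Mathlib
import Pool.Agent.TH915.PC.Ae

/-!
# The lower half of the almost everywhere law, from a lower bound for the means

Adapted from `Pool/Agent/TH915/PC/Ae.lean`.
-/

set_option autoImplicit false

namespace Pool.Agent.TH915.SH

open Filter Topology MeasureTheory
open Pool.Agent.TH915.PC (null_of_density int_X int_X2)

variable {X : ℕ → ℝ → ℝ} {V : ℕ → ℝ} {b0 b1 L K : ℝ}

/-- the lower half -/
lemma lower_null2 (hV : Tendsto V atTop atTop) (hX : ∀ n, Measurable (X n)) (hX0 : ∀ n x, 0 ≤ X n x)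
    (hbd : ∀ n, ∃ M, ∀ x, X n x ≤ M)
    (hmean : ∀ s t, b0 < s → s < t → t < b1 →
      ∀ᶠ n in atTop, L * (t - s) * V n ≤ ∫ x in Set.Ioc s t, X n x)
    (hK : 0 < K)
    (hsec : ∀ s t, b0 < s → s < t → t < b1 →
      ∀ᶠ n in atTop, ∫ x in Set.Ioc s t, (X n x) ^ 2 ≤ K * (t - s) * (V n) ^ 2)
    {c : ℝ} (hc0 : 0 ≤ c) (hc : c < L) (n0 : ℕ) :
    volume (Set.Ioo b0 b1 ∩ ⋂ n ∈ Set.Ici n0, {t | X n t ≤ c * V n}) = 0 := by
  set B := Set.Ioo b0 b1 ∩ ⋂ n ∈ Set.Ici n0, {t | X n t ≤ c * V n} with hB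
  have hBm : MeasurableSet B := by
    refine measurableSet_Ioo.inter (MeasurableSet.biInter (Set.to_countable _) fun n _ => ?_)
    exact measurableSet_le (hX n) measurable_const
  set Δ := L - c with hΔ
  have hΔ0 : 0 < Δ := by rw [hΔ]; linarith
  set κ := (Δ / 2) ^ 2 / K with hκ
  have hκ0 : 0 < κ := by positivity
  refine null_of_density hBm hκ0 Set.inter_subset_left fun s t hs hst ht => ?_
  have hts : 0 < t - s := by linarith
  have hlt : (c + Δ / 2) * (t - s) < L * (t - s) := by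
    have : c + Δ / 2 < L := by rw [hΔ]; linarith
    nlinarith
  obtain ⟨n, hn0, hn2, hn3, hn4⟩ := ((hmean s t hs hst ht).and
    ((eventually_ge_atTop n0).and ((hV.eventually_ge_atTop 1).and (hsec s t hs hst ht)))).exists
  have hln : 0 < V n := by linarith
  have hn1 : (c + Δ / 2) * (t - s) * V n < ∫ x in Set.Ioc s t, X n x :=
    (mul_lt_mul_of_pos_right hlt hln).trans_le hn0
  have hS0 : ∀ x, 0 ≤ X n x := hX0 n
  have hSint : IntegrableOn (X n) (Set.Ioc s t) := int_X hX hX0 hbd n s t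
  have hBI : MeasurableSet (B ∩ Set.Ioc s t) := hBm.inter measurableSet_Ioc
  have hsplit : ∫ x in Set.Ioc s t, X n x =
      (∫ x in B ∩ Set.Ioc s t, X n x) + ∫ x in Set.Ioc s t \ B, X n x := by
    have := integral_inter_add_sdiff (μ := volume) (f := X n) (s := Set.Ioc s t) hBm hSint
    rw [Set.inter_comm] at this
    exact this.symm
  set m := volume.real (B ∩ Set.Ioc s t) with hm
  have hmle : m ≤ t - s := by
    rw [hm, ← Real.volume_real_Ioc_of_le hst.le]
    exact measureReal_mono Set.inter_subset_right (by simp)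
  have hm0 : 0 ≤ m := measureReal_nonneg
  have hB1 : ∫ x in B ∩ Set.Ioc s t, X n x ≤ m * (c * V n) := by
    rw [hm, ← smul_eq_mul, ← setIntegral_const]
    refine setIntegral_mono_on (hSint.mono_set Set.inter_subset_right) (integrableOn_const
      (ne_top_of_le_ne_top (by simp : volume (Set.Ioc s t) ≠ ⊤) (measure_mono Set.inter_subset_right)))
      hBI fun x hx => ?_
    have := hx.1.2
    simp only [Set.mem_iInter, Set.mem_ofPred_eq] at this
    exact this n hn2
  have hB2 : Δ / 2 * (t - s) * V n ≤ ∫ x in Set.Ioc s t \ B, X n x := by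
    have h1 : m * (c * V n) ≤ (t - s) * (c * V n) :=
      mul_le_mul_of_nonneg_right hmle (by positivity)
    nlinarith
  have hm' : volume.real (Set.Ioc s t \ B) = (t - s) - m := by
    have h1 := measureReal_inter_add_sdiff (μ := volume) (s := Set.Ioc s t) hBm (by simp)
    rw [Real.volume_real_Ioc_of_le hst.le, Set.inter_comm] at h1
    linarith
  have hS2int : IntegrableOn (fun x => X n x ^ 2) (Set.Ioc s t) := int_X2 hX hX0 hbd n s t
  set E := Set.Ioc s t \ B with hE
  have hEm : MeasurableSet E := measurableSet_Ioc.diff hBm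
  have hEfin : volume E ≠ ⊤ :=
    ne_top_of_le_ne_top (by simp : volume (Set.Ioc s t) ≠ ⊤) (measure_mono Set.sdiff_subset)
  have hEs : ∫ x in E, X n x ^ 2 ≤ K * (t - s) * (V n) ^ 2 := by
    refine le_trans ?_ hn4
    exact setIntegral_mono_set hS2int (Eventually.of_forall fun x => sq_nonneg _)
      Set.sdiff_subset.eventuallyLE
  have hquad : ∀ lam : ℝ, 0 < lam → ∫ x in E, X n x ≤
      (lam * (∫ x in E, X n x ^ 2) + (1 / lam) * volume.real E) / 2 := by
    intro lam hlam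
    have h1 : ∫ x in E, X n x ≤ ∫ x in E, (lam / 2 * X n x ^ 2 + 1 / (2 * lam)) := by
      refine setIntegral_mono_on (hSint.mono_set Set.sdiff_subset)
        (((hS2int.mono_set Set.sdiff_subset).const_mul _).add (integrableOn_const hEfin)) hEm
        fun x _ => ?_
      have h2 : 0 ≤ (lam * X n x - 1) ^ 2 / (2 * lam) := by positivity
      have h3 : (lam * X n x - 1) ^ 2 / (2 * lam) = lam / 2 * X n x ^ 2 + 1 / (2 * lam) - X n x := by
        field_simp; ring
      linarith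
    rw [integral_add ((hS2int.mono_set Set.sdiff_subset).const_mul _) (integrableOn_const hEfin),
      integral_const_mul, setIntegral_const, smul_eq_mul, ← hE] at h1
    refine h1.trans (le_of_eq ?_)
    field_simp
  by_contra hcon
  push Not at hcon
  have hEv : volume.real E < κ * (t - s) := by
    rw [hm']; linarith
  have hE0 : 0 ≤ volume.real E := measureReal_nonneg
  set lam := Δ / (2 * K * V n) with hlam
  have hlam0 : 0 < lam := by positivity
  have hq := hquad lam hlam0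
  have h5 : lam * (∫ x in E, X n x ^ 2) ≤ Δ / 2 * (t - s) * V n := by
    calc lam * (∫ x in E, X n x ^ 2) ≤ lam * (K * (t - s) * (V n) ^ 2) :=
          mul_le_mul_of_nonneg_left hEs hlam0.le
      _ = _ := by rw [hlam]; field_simp
  have h6 : (1 / lam) * volume.real E < Δ / 2 * (t - s) * V n := by
    calc (1 / lam) * volume.real E < (1 / lam) * (κ * (t - s)) :=
          mul_lt_mul_of_pos_left hEv (by positivity)
      _ = _ := by rw [hlam, hκ]; field_simp
  linarith

/-- lower law from a lower bound for the means -/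
theorem low_law {X : ℕ → ℝ → ℝ} {V : ℕ → ℝ} {b0 b1 L K : ℝ} (hV : Tendsto V atTop atTop)
    (hX : ∀ n, Measurable (X n)) (hX0 : ∀ n x, 0 ≤ X n x) (hbd : ∀ n, ∃ M, ∀ x, X n x ≤ M)
    (hmean : ∀ s t, b0 < s → s < t → t < b1 →
      ∀ᶠ n in atTop, L * (t - s) * V n ≤ ∫ x in Set.Ioc s t, X n x)
    (hL : 0 < L) (hK : 0 < K)
    (hsec : ∀ s t, b0 < s → s < t → t < b1 →
      ∀ᶠ n in atTop, ∫ x in Set.Ioc s t, (X n x) ^ 2 ≤ K * (t - s) * (V n) ^ 2) :
    ∀ᵐ x : ℝ, x ∈ Set.Ioo b0 b1 → ∀ c : ℝ, c < L → ∃ᶠ n in atTop, c * V n < X n x := by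
  have h1 : ∀ q : ℚ, ∀ n0 : ℕ, ∀ᵐ x : ℝ, 0 ≤ (q : ℝ) → (q : ℝ) < L →
      x ∉ Set.Ioo b0 b1 ∩ ⋂ n ∈ Set.Ici n0, {t | X n t ≤ q * V n} := by
    intro q n0
    by_cases h : 0 ≤ (q : ℝ) ∧ (q : ℝ) < L
    · have h2 := lower_null2 hV hX hX0 hbd hmean hK hsec h.1 h.2 n0
      have h3 : ∀ᵐ x : ℝ, x ∉ Set.Ioo b0 b1 ∩ ⋂ n ∈ Set.Ici n0, {t | X n t ≤ q * V n} :=
        measure_eq_zero_iff_ae_notMem.1 h2
      filter_upwards [h3] with x hx _ _
      exact hx
    · exact Eventually.of_forall fun x h2 h3 => absurd ⟨h2, h3⟩ h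
  have h1' := ae_all_iff.2 fun q => ae_all_iff.2 (h1 q)
  filter_upwards [h1'] with x hx1 hx
  have hV0 : ∀ᶠ n in atTop, 0 ≤ V n := hV.eventually_ge_atTop 0
  intro c hc
  obtain ⟨q, hq1, hq2⟩ := exists_rat_btwn (max_lt hc hL)
  rw [frequently_atTop]
  intro n0
  obtain ⟨n1, hn1⟩ := eventually_atTop.1 hV0
  have h3 := hx1 q (max n0 n1) ((le_max_right c 0).trans hq1.le) hq2
  have h4 : x ∉ ⋂ n ∈ Set.Ici (max n0 n1), {t | X n t ≤ q * V n} := fun h => h3 ⟨hx, h⟩
  simp only [Set.mem_iInter, Set.mem_ofPred_eq, not_forall, not_le] at h4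
  obtain ⟨n, hn, h5⟩ := h4
  have hn' : max n0 n1 ≤ n := hn
  refine ⟨n, (le_max_left _ _).trans hn', lt_of_le_of_lt ?_ h5⟩
  exact mul_le_mul_of_nonneg_right ((le_max_left c 0).trans hq1.le)
    (hn1 n ((le_max_right _ _).trans hn'))

end Pool.Agent.TH915.SH
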