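import Mathlib
set_option autoImplicit false
namespace Pool.Agent.TH915.SH
open MeasureTheory Filter Topology

open Classical in
private noncomputable def St (A : ℕ) (y : ℝ) : ℝ := if (A + ⌊y⌋₊ + 1).Prime then (1 : ℝ) else 0

private theorem St_nonneg (A : ℕ) (y : ℝ) : 0 ≤ St A y := by
  unfold St; split_ifs <;> norm_num

private theorem St_le (A : ℕ) (y : ℝ) : St A y ≤ 1 := by
  unfold St; split_ifs <;> norm_num

private theorem St_meas (A : ℕ) : Measurable (St A) := by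
  classical
  have h : St A = (fun k : ℕ => if (A + k + 1).Prime then (1 : ℝ) else 0) ∘ (fun y : ℝ => ⌊y⌋₊) := by
    funext y
    simp only [St, Function.comp]
  rw [h]
  exact (measurable_of_countable _).comp Nat.measurable_floor

private theorem St_ii (A : ℕ) (a b : ℝ) : IntervalIntegrable (St A) volume a b := by
  refine (intervalIntegrable_const (c := (1 : ℝ))).mono_fun (St_meas A).aestronglyMeasurable ?_
  refine ae_of_all _ fun y => ?_
  show ‖St A y‖ ≤ ‖(1 : ℝ)‖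
  rw [Real.norm_of_nonneg (St_nonneg A y), norm_one]
  exact St_le A y

open Classical in
private theorem St_unit (A k : ℕ) : ∫ y in (k : ℝ)..((k + 1 : ℕ) : ℝ), St A y =
    if (A + k + 1).Prime then (1 : ℝ) else 0 := by
  have h1 : ∫ y in (k : ℝ)..((k + 1 : ℕ) : ℝ), St A y =
      ∫ y in (k : ℝ)..((k + 1 : ℕ) : ℝ), (if (A + k + 1).Prime then (1 : ℝ) else 0) := by
    apply intervalIntegral.integral_congr_ae
    have h2 : ∀ᵐ y : ℝ, y ≠ ((k + 1 : ℕ) : ℝ) := by
      rw [ae_iff]; simp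
    filter_upwards [h2] with y hy hyI
    rw [Set.uIoc_of_le (by push_cast; linarith)] at hyI
    have hlt : y < ((k + 1 : ℕ) : ℝ) := lt_of_le_of_ne hyI.2 hy
    have hf : ⌊y⌋₊ = k := by
      rw [Nat.floor_eq_iff (le_trans (Nat.cast_nonneg k) hyI.1.le)]
      refine ⟨hyI.1.le, by push_cast at hlt; exact hlt⟩
    simp only [St, hf]
  rw [h1, intervalIntegral.integral_const]
  push_cast
  simp

open Classical in
private theorem St_sum (A a b : ℕ) (hab : a ≤ b) : ∫ y in (a : ℝ)..(b : ℝ), St A y =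
    (((Finset.Ioc (A + a) (A + b)).filter Nat.Prime).card : ℝ) := by
  have h1 := intervalIntegral.sum_integral_adjacent_intervals_Ico (μ := volume) (f := St A)
    (a := fun k : ℕ => (k : ℝ)) hab (fun k _ => St_ii A _ _)
  rw [← h1]
  have h2 : ∀ k ∈ Finset.Ico a b, ∫ y in ((k : ℕ) : ℝ)..((k + 1 : ℕ) : ℝ), St A y =
      if (A + k + 1).Prime then (1 : ℝ) else 0 := fun k _ => St_unit A k
  rw [Finset.sum_congr rfl h2, Finset.card_filter]
  push_cast
  refine Finset.sum_bij (fun k _ => A + k + 1) ?_ ?_ ?_ ?_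
  · intro k hk
    rw [Finset.mem_Ico] at hk
    rw [Finset.mem_Ioc]; omega
  · intro k _ l _ hkl; omega
  · intro m hm
    rw [Finset.mem_Ioc] at hm
    exact ⟨m - A - 1, by rw [Finset.mem_Ico]; omega, by omega⟩
  · intro k _; rfl

open Classical in
/-- the mean from below, by primes in short intervals -/
theorem mean_low (h : ∃ δ η : ℝ, 0 < δ ∧ δ < 1 ∧ 0 < η ∧ ∃ X₀ : ℕ, 2 ≤ X₀ ∧
    ∀ X Y : ℕ, X₀ ≤ X → (X : ℝ) ^ (1 - δ) ≤ Y → Y ≤ X →
      η * Y / Real.log X ≤ (((Finset.Ioc X (X + Y)).filter Nat.Prime).card : ℝ)) :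
    ∃ δ η : ℝ, 0 < δ ∧ δ < 1 ∧ 0 < η ∧ ∀ s t : ℝ, 0 < s → s < t → ∃ A0 : ℕ, 2 ≤ A0 ∧
      ∀ A : ℕ, A0 ≤ A → η * (t - s) * (1 / Real.log A) ≤
        ∫ x in s..t, (if (A + ⌊(A : ℝ) ^ (1 - δ) * x⌋₊ + 1).Prime then (1 : ℝ) else 0) := by
  obtain ⟨δ, η, hδ, hδ1, hη, X₀, hX₀, H⟩ := h
  refine ⟨δ / 2, η / 4, by linarith, by linarith, by linarith, fun s t hs hst => ?_⟩
  have hts : 0 < t - s := by linarith
  have l1 : Tendsto (fun A : ℕ => (A : ℝ) ^ (1 - δ / 2)) atTop atTop :=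
    (tendsto_rpow_atTop (by linarith)).comp tendsto_natCast_atTop_atTop
  have l2 : Tendsto (fun A : ℕ => (A : ℝ) ^ (δ / 2)) atTop atTop :=
    (tendsto_rpow_atTop (by linarith)).comp tendsto_natCast_atTop_atTop
  have ev : ∀ᶠ A : ℕ in atTop, 4 / (t - s) ≤ (A : ℝ) ^ (1 - δ / 2) ∧ 2 * t ≤ (A : ℝ) ^ (δ / 2) ∧
      4 / (t - s) ≤ (A : ℝ) ^ (δ / 2) :=
    (l1.eventually_ge_atTop _).and ((l2.eventually_ge_atTop _).and (l2.eventually_ge_atTop _))
  obtain ⟨A1, hA1⟩ := eventually_atTop.1 ev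
  refine ⟨max A1 X₀, le_trans hX₀ (le_max_right _ _), fun A hA => ?_⟩
  obtain ⟨c1, c2, c3⟩ := hA1 A (le_trans (le_max_left _ _) hA)
  have hAX : X₀ ≤ A := le_trans (le_max_right _ _) hA
  have hA2 : 2 ≤ A := le_trans hX₀ hAX
  have hA2r : (2 : ℝ) ≤ A := by exact_mod_cast hA2
  have hA0 : (0 : ℝ) < A := by linarith
  set G : ℝ := (A : ℝ) ^ (1 - δ / 2) with hG
  have hG0 : 0 < G := Real.rpow_pos_of_pos hA0 _
  have hGA : G * (A : ℝ) ^ (δ / 2) = A := by
    rw [hG, ← Real.rpow_add hA0]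
    norm_num
  have c1' : 4 ≤ G * (t - s) := by
    rwa [div_le_iff₀ hts] at c1
  have c3' : 4 ≤ (A : ℝ) ^ (δ / 2) * (t - s) := by
    rwa [div_le_iff₀ hts] at c3
  have hGt : G * t ≤ A / 2 := by
    have : G * (2 * t) ≤ G * (A : ℝ) ^ (δ / 2) := mul_le_mul_of_nonneg_left c2 hG0.le
    rw [hGA] at this
    linarith
  have hGs : G * s ≤ A / 2 := le_trans (mul_le_mul_of_nonneg_left hst.le hG0.le) hGt
  set a : ℕ := ⌈G * s⌉₊ with ha
  set b : ℕ := ⌊G * t⌋₊ with hb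
  have hGs0 : 0 ≤ G * s := by positivity
  have hGt0 : 0 ≤ G * t := mul_nonneg hG0.le (by linarith)
  have ha1 : G * s ≤ a := Nat.le_ceil _
  have ha2 : (a : ℝ) < G * s + 1 := Nat.ceil_lt_add_one hGs0
  have hb1 : (b : ℝ) ≤ G * t := Nat.floor_le hGt0
  have hb2 : G * t < b + 1 := Nat.lt_floor_add_one _
  have hGts : G * (t - s) = G * t - G * s := by ring
  have hab : a ≤ b := by
    have : (a : ℝ) ≤ b := by linarith
    exact_mod_cast this
  obtain ⟨Y, hY⟩ := Nat.exists_eq_add_of_le hab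
  have hYr : (b : ℝ) = a + Y := by rw [hY]; push_cast; ring
  have hYlow : G * (t - s) / 2 ≤ Y := by linarith
  have hXA : ((A + a : ℕ) : ℝ) ≤ 2 * A := by push_cast; linarith
  have hYX : Y ≤ A + a := by
    have : (Y : ℝ) ≤ ((A + a : ℕ) : ℝ) := by
      push_cast
      have : (0 : ℝ) ≤ a := Nat.cast_nonneg a
      linarith
    exact_mod_cast this
  have hpow : ((A + a : ℕ) : ℝ) ^ (1 - δ) ≤ Y := by
    calc ((A + a : ℕ) : ℝ) ^ (1 - δ) ≤ (2 * (A : ℝ)) ^ (1 - δ) :=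
          Real.rpow_le_rpow (Nat.cast_nonneg _) hXA (by linarith)
      _ = 2 ^ (1 - δ) * (A : ℝ) ^ (1 - δ) := Real.mul_rpow (by norm_num) hA0.le
      _ ≤ 2 * (A : ℝ) ^ (1 - δ) := by
          apply mul_le_mul_of_nonneg_right _ (Real.rpow_nonneg hA0.le _)
          calc (2 : ℝ) ^ (1 - δ) ≤ 2 ^ (1 : ℝ) :=
                Real.rpow_le_rpow_of_exponent_le (by norm_num) (by linarith)
            _ = 2 := Real.rpow_one _
      _ ≤ G * (t - s) / 2 := by
          have e : G = (A : ℝ) ^ (1 - δ) * (A : ℝ) ^ (δ / 2) := by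
            rw [hG, ← Real.rpow_add hA0]; congr 1; ring
          have hp : 0 ≤ (A : ℝ) ^ (1 - δ) := Real.rpow_nonneg hA0.le _
          rw [e]
          nlinarith [mul_le_mul_of_nonneg_left c3' hp]
      _ ≤ Y := hYlow
  have HH := H (A + a) Y (by omega) hpow hYX
  have hlogA : 0 < Real.log A := Real.log_pos (by linarith)
  have hX1 : (1 : ℝ) < ((A + a : ℕ) : ℝ) := by
    push_cast
    have : (0 : ℝ) ≤ a := Nat.cast_nonneg a
    linarith
  have hlogX0 : 0 < Real.log ((A + a : ℕ) : ℝ) := Real.log_pos hX1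
  have hlogX : Real.log ((A + a : ℕ) : ℝ) ≤ 2 * Real.log A := by
    calc Real.log ((A + a : ℕ) : ℝ) ≤ Real.log ((A : ℝ) ^ 2) := by
          apply Real.log_le_log (by linarith)
          calc ((A + a : ℕ) : ℝ) ≤ 2 * A := hXA
            _ ≤ (A : ℝ) ^ 2 := by nlinarith
      _ = 2 * Real.log A := by rw [Real.log_pow]; norm_num
  have hsub : ∫ x in s..t, (if (A + ⌊(A : ℝ) ^ (1 - δ / 2) * x⌋₊ + 1).Prime then (1 : ℝ) else 0) =
      G⁻¹ * ∫ y in (G * s)..(G * t), St A y := by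
    have := intervalIntegral.integral_comp_mul_left (a := s) (b := t) (St A) hG0.ne'
    rw [smul_eq_mul] at this
    rw [← this]
    rfl
  rw [hsub]
  have hmono : ∫ y in (a : ℝ)..(b : ℝ), St A y ≤ ∫ y in (G * s)..(G * t), St A y := by
    apply intervalIntegral.integral_mono_interval ha1 (by exact_mod_cast hab) hb1
    · exact ae_of_all _ fun y => St_nonneg A y
    · exact St_ii A _ _
  rw [St_sum A a b hab] at hmono
  have hb' : A + b = A + a + Y := by omega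
  rw [hb'] at hmono
  have h3 : η / 4 * (t - s) * (1 / Real.log A) ≤ G⁻¹ * (η * Y / Real.log ((A + a : ℕ) : ℝ)) := by
    rw [mul_one_div, inv_mul_eq_div, div_div, div_le_div_iff₀ hlogA (by positivity)]
    have h4 : Real.log ((A + a : ℕ) : ℝ) * G ≤ 2 * Real.log A * G :=
      mul_le_mul_of_nonneg_right hlogX hG0.le
    calc η / 4 * (t - s) * (Real.log ((A + a : ℕ) : ℝ) * G)
        ≤ η / 4 * (t - s) * (2 * Real.log A * G) :=
          mul_le_mul_of_nonneg_left h4 (by positivity)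
      _ = η * (G * (t - s) / 2) * Real.log A := by ring
      _ ≤ η * Y * Real.log A :=
          mul_le_mul_of_nonneg_right (mul_le_mul_of_nonneg_left hYlow hη.le) hlogA.le
  calc η / 4 * (t - s) * (1 / Real.log A) ≤ G⁻¹ * (η * Y / Real.log ((A + a : ℕ) : ℝ)) := h3
    _ ≤ G⁻¹ * ∫ y in (G * s)..(G * t), St A y :=
        mul_le_mul_of_nonneg_left (le_trans HH hmono) (inv_nonneg.2 hG0.le)

end Pool.Agent.TH915.SH
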