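import Mathlib
import Pool.Agent.TH915.SL.Sums
set_option autoImplicit false
namespace Pool.Agent.TH915.SH
open Filter Topology MeasureTheory Finset

lemma mul_ii {f g : ℝ → ℝ} (hf : Measurable f) (hg : Measurable g) {A B : ℝ}
    (hfb : ∀ x, |f x| ≤ A) (hgb : ∀ x, |g x| ≤ B) (s t : ℝ) :
    IntervalIntegrable (fun x => f x * g x) volume s t := by
  have h : ∀ s t : ℝ, IntegrableOn (fun x => f x * g x) (Set.Ioc s t) := by
    intro s t
    refine Measure.integrableOn_of_bounded (M := A * B) (by simp) (hf.mul hg).aestronglyMeasurable ?_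
    exact Eventually.of_forall fun x => by
      rw [Real.norm_eq_abs, abs_mul]
      exact mul_le_mul (hfb x) (hgb x) (abs_nonneg _) ((abs_nonneg _).trans (hfb x))
  rcases le_total s t with h1 | h1
  · exact (intervalIntegrable_iff_integrableOn_Ioc_of_le h1).2 (h s t)
  · exact ((intervalIntegrable_iff_integrableOn_Ioc_of_le h1).2 (h t s)).symm

lemma one_ii {f : ℝ → ℝ} (hf : Measurable f) {A : ℝ} (hfb : ∀ x, |f x| ≤ A) (s t : ℝ) :
    IntervalIntegrable f volume s t := by
  have := mul_ii hf (measurable_const (a := (1 : ℝ))) hfb (B := 1) (fun x => by simp) s t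
  simpa using this

lemma pair_bound {A K0 : ℝ} (hA : 1 ≤ A)
    (hnear : ∀ n : ℕ, 2 ≤ n → ∑ m ∈ range n, (if 2 ≤ m ∧ n < m ^ 4 then
      1 / ((m : ℝ) * Real.log m) * (1 / (((n - m : ℕ) : ℝ) * Real.log n)) else 0) ≤
      K0 * (1 / ((n : ℝ) * Real.log n))) (hK0 : 0 < K0)
    {r w : ℕ → ℝ} {P : ℕ} (hP : 2 ≤ P) (hr0 : ∀ n, 0 ≤ r n) (hw : ∀ n, 0 ≤ w n)
    (hw1 : ∀ n, w n ≤ 1)
    (hr : ∀ n ≥ P, r n ≤ A * (1 / ((n : ℝ) * Real.log n)) ∧ 1 / ((n : ℝ) * Real.log n) ≤ A * r n)
    (n : ℕ) (hn : P ≤ n) :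
    ∑ m ∈ Finset.Ico P n, w m * (r m * (1 / (((n - m : ℕ) : ℝ) * Real.log n))) ≤
      A ^ 2 * K0 * r n + 2 * A * r n * ∑ m ∈ range n, w m * r m := by
  have hn2 : 2 ≤ n := hP.trans hn
  have hl : 0 < Real.log n := Real.log_pos (by exact_mod_cast hn2)
  have hn0 : (0:ℝ) < n := by exact_mod_cast (by omega : 0 < n)
  have hA0 : 0 < A := by linarith
  have hrn := hr0 n
  have hx : ∀ m, 0 ≤ 2 * A * r n * (w m * r m) := by
    intro m
    have := hr0 m; have := hw m; positivity
  have hz : ∀ m : ℕ, 0 ≤ 1 / (((n - m : ℕ) : ℝ) * Real.log n) := fun m => by positivity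
  have key : ∀ m ∈ Finset.Ico P n, w m * (r m * (1 / (((n - m : ℕ) : ℝ) * Real.log n))) ≤
     A * (if 2 ≤ m ∧ n < m ^ 4 then
      1 / ((m : ℝ) * Real.log m) * (1 / (((n - m : ℕ) : ℝ) * Real.log n)) else 0) +
        2 * A * r n * (w m * r m) := by
    intro m hm
    rw [Finset.mem_Ico] at hm
    have hm2 : 2 ≤ m := hP.trans hm.1
    have hz := hz m
    have hx := hx m
    split_ifs with h
    · have h1 : w m * (r m * (1 / (((n - m : ℕ) : ℝ) * Real.log n))) ≤
          r m * (1 / (((n - m : ℕ) : ℝ) * Real.log n)) :=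
        mul_le_of_le_one_left (mul_nonneg (hr0 m) hz) (hw1 m)
      have h2 : r m * (1 / (((n - m : ℕ) : ℝ) * Real.log n)) ≤
          A * (1 / ((m : ℝ) * Real.log m)) * (1 / (((n - m : ℕ) : ℝ) * Real.log n)) :=
        mul_le_mul_of_nonneg_right (hr m hm.1).1 hz
      rw [mul_assoc A] at h2
      linarith
    · have h3 : m ^ 4 ≤ n := by
        by_contra h4
        exact h ⟨hm2, by omega⟩
      have h4 : 2 * m ≤ n := by
        have h41 : m * 2 ^ 3 ≤ m * m ^ 3 := Nat.mul_le_mul_left m (Nat.pow_le_pow_left hm2 3)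
        have h42 : m * m ^ 3 = m ^ 4 := by ring
        omega
      have h5 : 1 / (((n - m : ℕ) : ℝ) * Real.log n) ≤ 2 * (1 / ((n:ℝ) * Real.log n)) := by
        have h6 : (n : ℝ) / 2 ≤ ((n - m : ℕ) : ℝ) := by
          rw [Nat.cast_sub (by omega)]
          have : (2:ℝ) * m ≤ n := by exact_mod_cast h4
          linarith
        calc 1 / (((n - m : ℕ) : ℝ) * Real.log n) ≤ 1 / ((n:ℝ)/2 * Real.log n) := by
              apply one_div_le_one_div_of_le (by positivity)
              exact mul_le_mul_of_nonneg_right h6 hl.le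
          _ = _ := by field_simp
      have h7 := (hr n hn).2
      have h8 : 1 / (((n - m : ℕ) : ℝ) * Real.log n) ≤ 2 * A * r n := by linarith
      have h9 : w m * (r m * (1 / (((n - m : ℕ) : ℝ) * Real.log n))) ≤
          w m * (r m * (2 * A * r n)) :=
        mul_le_mul_of_nonneg_left (mul_le_mul_of_nonneg_left h8 (hr0 m)) (hw m)
      have h10 : w m * (r m * (2 * A * r n)) = A * 0 + 2 * A * r n * (w m * r m) := by ring
      linarith
  refine (Finset.sum_le_sum key).trans ?_
  have h1 : ∑ m ∈ Finset.Ico P n, (A * (if 2 ≤ m ∧ n < m ^ 4 then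
      1 / ((m : ℝ) * Real.log m) * (1 / (((n - m : ℕ) : ℝ) * Real.log n)) else 0) +
        2 * A * r n * (w m * r m)) ≤
      ∑ m ∈ range n, (A * (if 2 ≤ m ∧ n < m ^ 4 then
      1 / ((m : ℝ) * Real.log m) * (1 / (((n - m : ℕ) : ℝ) * Real.log n)) else 0) +
        2 * A * r n * (w m * r m)) := by
    refine Finset.sum_le_sum_of_subset_of_nonneg ?_ fun m _ _ => ?_
    · intro m hm
      rw [Finset.mem_Ico] at hm
      exact Finset.mem_range.2 hm.2
    · have hz := hz m
      have hx := hx m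
      split_ifs with h
      · have hm1 : 0 ≤ Real.log m := Real.log_natCast_nonneg m
        have : 0 ≤ 1 / ((m : ℝ) * Real.log m) := by positivity
        have := mul_nonneg hA0.le (mul_nonneg this hz)
        linarith
      · simpa using hx
  refine h1.trans ?_
  rw [Finset.sum_add_distrib, ← Finset.mul_sum, ← Finset.mul_sum]
  have h2 := mul_le_mul_of_nonneg_left (hnear n hn2) hA0.le
  have h3 : A * (K0 * (1 / ((n : ℝ) * Real.log n))) ≤ A * (K0 * (A * r n)) :=
    mul_le_mul_of_nonneg_left (mul_le_mul_of_nonneg_left (hr n hn).2 hK0.le) hA0.le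
  have h4 : A * (K0 * (A * r n)) = A ^ 2 * K0 * r n := by ring
  linarith

theorem second_w {K A : ℝ} (hK : 0 < K) (hA : 1 ≤ A) : ∃ K' : ℝ, 0 < K' ∧
    ∀ (f : ℕ → ℝ → ℝ) (r : ℕ → ℝ) (w : ℕ → ℝ) (s t : ℝ) (P : ℕ), s < t → 2 ≤ P →
    (∀ n, 0 ≤ w n) → (∀ n, w n ≤ 1) →
    (∀ n, Measurable (f n)) → (∀ n x, 0 ≤ f n x) → (∀ n x, f n x ≤ 1) →
    (∀ n, 0 ≤ r n) →
    (∀ n ≥ P, r n ≤ A * (1 / ((n : ℝ) * Real.log n)) ∧ 1 / ((n : ℝ) * Real.log n) ≤ A * r n) →
    (∀ n ≥ P, ∫ x in s..t, f n x ≤ K * (t - s) * r n) →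
    (∀ m n : ℕ, P ≤ m → m < n → ∫ x in s..t, f m x * f n x ≤
      K * (t - s) * (r m * (1 / (((n - m : ℕ) : ℝ) * Real.log n)))) →
    Tendsto (fun N : ℕ => ∑ n ∈ range N, w n * r n) atTop atTop →
    ∀ᶠ N in atTop, ∫ x in Set.Ioc s t, (∑ n ∈ range N, w n * f n x) ^ 2 ≤
      K' * (t - s) * (∑ n ∈ range N, w n * r n) ^ 2 := by
  obtain ⟨K0, hK0, hnear⟩ := Pool.Agent.TH915.SL.near_sum
  have hA0 : 0 < A := by linarith
  refine ⟨2 + 2 * (K * (1 + 2 * (A ^ 2 * K0) + 4 * A)), by positivity, ?_⟩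
  intro f r w s t P hst hP2 hw hw1 hfm hf0 hf1 hr0 hr hone hpair hV
  have hts : 0 < t - s := by linarith
  set V : ℕ → ℝ := fun N => ∑ n ∈ range N, w n * r n with hVdef
  have hVmono : ∀ a b, a ≤ b → V a ≤ V b := by
    intro a b hab
    exact Finset.sum_le_sum_of_subset_of_nonneg (Finset.range_mono hab) fun m _ _ =>
      mul_nonneg (hw m) (hr0 m)
  set q : ℕ → ℝ := fun n => ∑ m ∈ Finset.Ico P n,
    w m * w n * (r m * (1 / (((n - m : ℕ) : ℝ) * Real.log n))) with hq
  set S : ℕ → ℝ → ℝ := fun N x => ∑ n ∈ Finset.Ico P N, w n * f n x with hS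
  have hSm : ∀ N, Measurable (S N) := fun N =>
    Finset.measurable_sum _ fun n _ => (hfm n).const_mul _
  have hS0 : ∀ N x, 0 ≤ S N x := fun N x =>
    Finset.sum_nonneg fun n _ => mul_nonneg (hw n) (hf0 n x)
  have hSb : ∀ N x, |S N x| ≤ N := by
    intro N x
    rw [abs_of_nonneg (hS0 N x)]
    calc S N x ≤ ∑ _n ∈ Finset.Ico P N, (1 : ℝ) :=
          Finset.sum_le_sum fun n _ => mul_le_one₀ (hw1 n) (hf0 n x) (hf1 n x)
      _ = ((N - P : ℕ) : ℝ) := by simp
      _ ≤ N := by exact_mod_cast Nat.sub_le N P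
  have hfb : ∀ n x, |f n x| ≤ 1 := fun n x => by
    rw [abs_of_nonneg (hf0 n x)]; exact hf1 n x
  have hfi : ∀ n, IntervalIntegrable (f n) volume s t := fun n => one_ii (hfm n) (hfb n) s t
  set X : ℕ → ℝ → ℝ := fun N x => ∑ n ∈ range N, w n * f n x with hX
  have hXm : ∀ N, Measurable (X N) := fun N =>
    Finset.measurable_sum _ fun n _ => (hfm n).const_mul _
  have hX0 : ∀ N x, 0 ≤ X N x := fun N x =>
    Finset.sum_nonneg fun n _ => mul_nonneg (hw n) (hf0 n x)
  have hXb : ∀ N x, X N x ≤ N := by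
    intro N x
    calc X N x ≤ ∑ _n ∈ range N, (1 : ℝ) :=
          Finset.sum_le_sum fun n _ => mul_le_one₀ (hw1 n) (hf0 n x) (hf1 n x)
      _ = N := by simp
  have hind : ∀ N, P ≤ N → ∫ x in s..t, (S N x) ^ 2 ≤
      K * (t - s) * ∑ n ∈ Finset.Ico P N, (w n * r n + 2 * q n) := by
    intro N hN
    induction N, hN using Nat.le_induction with
    | base =>
      simp [hS]
    | succ N hN ih =>
      have e1 : ∀ x, (S (N + 1) x) ^ 2 = (S N x) * (S N x) + (2 * (S N x * (w N * f N x)) +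
          (w N * f N x) * (w N * f N x)) := by
        intro x
        simp only [hS]
        rw [Finset.sum_Ico_succ_top hN]
        ring
      have hwm : Measurable (fun x => w N * f N x) := (hfm N).const_mul _
      have hwb : ∀ x, |w N * f N x| ≤ 1 := by
        intro x
        rw [abs_of_nonneg (mul_nonneg (hw N) (hf0 N x))]
        exact mul_le_one₀ (hw1 N) (hf0 N x) (hf1 N x)
      have i1 := mul_ii (hSm N) (hSm N) (hSb N) (hSb N) s t
      have i2 := mul_ii (hSm N) hwm (hSb N) hwb s t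
      have i3 := mul_ii hwm hwm hwb hwb s t
      have e2 : ∫ x in s..t, (S (N + 1) x) ^ 2 = (∫ x in s..t, S N x * S N x) +
          (2 * (∫ x in s..t, S N x * (w N * f N x)) +
            ∫ x in s..t, (w N * f N x) * (w N * f N x)) := by
        simp only [e1]
        rw [intervalIntegral.integral_add i1 ((i2.const_mul 2).add i3),
          intervalIntegral.integral_add (i2.const_mul 2) i3, intervalIntegral.integral_const_mul]
      have h1 : ∫ x in s..t, S N x * (w N * f N x) ≤ K * (t - s) * q N := by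
        have e3 : ∀ x, S N x * (w N * f N x) =
            ∑ m ∈ Finset.Ico P N, (w m * w N) * (f m x * f N x) := by
          intro x
          simp only [hS]
          rw [Finset.sum_mul]
          exact Finset.sum_congr rfl fun m _ => by ring
        simp only [e3]
        rw [intervalIntegral.integral_finsetSum fun m _ =>
          (mul_ii (hfm m) (hfm N) (hfb m) (hfb N) s t).const_mul _]
        calc ∑ m ∈ Finset.Ico P N, ∫ x in s..t, (w m * w N) * (f m x * f N x) =
            ∑ m ∈ Finset.Ico P N, (w m * w N) * ∫ x in s..t, f m x * f N x :=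
              Finset.sum_congr rfl fun m _ => intervalIntegral.integral_const_mul _ _
          _ ≤ ∑ m ∈ Finset.Ico P N, (w m * w N) *
              (K * (t - s) * (r m * (1 / (((N - m : ℕ) : ℝ) * Real.log N)))) := by
              refine Finset.sum_le_sum fun m hm => ?_
              rw [Finset.mem_Ico] at hm
              exact mul_le_mul_of_nonneg_left (hpair m N hm.1 hm.2) (mul_nonneg (hw m) (hw N))
          _ = K * (t - s) * q N := by
              simp only [hq]
              rw [Finset.mul_sum]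
              exact Finset.sum_congr rfl fun m _ => by ring
      have h2 : ∫ x in s..t, (w N * f N x) * (w N * f N x) ≤
          K * (t - s) * (w N * r N) := by
        calc ∫ x in s..t, (w N * f N x) * (w N * f N x) ≤ ∫ x in s..t, w N * f N x := by
              refine intervalIntegral.integral_mono_on hst.le i3 ((hfi N).const_mul _)
                fun x _ => ?_
              have h3 : 0 ≤ w N * f N x := mul_nonneg (hw N) (hf0 N x)
              have h4 := hwb x
              rw [abs_of_nonneg h3] at h4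
              nlinarith
          _ = w N * ∫ x in s..t, f N x := intervalIntegral.integral_const_mul _ _
          _ ≤ w N * (K * (t - s) * r N) :=
              mul_le_mul_of_nonneg_left (hone N hN) (hw N)
          _ = _ := by ring
      have e4 : ∫ x in s..t, S N x * S N x = ∫ x in s..t, (S N x) ^ 2 := by
        congr 1
        ext x
        ring
      rw [e2, e4, Finset.sum_Ico_succ_top hN, mul_add]
      calc (∫ x in s..t, (S N x) ^ 2) + (2 * (∫ x in s..t, S N x * (w N * f N x)) +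
            ∫ x in s..t, (w N * f N x) * (w N * f N x)) ≤
          K * (t - s) * ∑ n ∈ Finset.Ico P N, (w n * r n + 2 * q n) +
            (2 * (K * (t - s) * q N) + K * (t - s) * (w N * r N)) := by
            gcongr
        _ = _ := by ring
  filter_upwards [eventually_ge_atTop P, hV.eventually_ge_atTop 1,
    hV.eventually_ge_atTop (P : ℝ)] with N hN hN1 hN2
  change 1 ≤ V N at hN1
  change (P : ℝ) ≤ V N at hN2
  change ∫ x in Set.Ioc s t, (X N x) ^ 2 ≤ _ * (V N) ^ 2
  have hV0 : 0 < V N := by linarith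
  rw [← intervalIntegral.integral_of_le hst.le]
  have hXS : ∀ x, X N x ≤ P + S N x := by
    intro x
    simp only [hX]
    rw [← Finset.sum_range_add_sum_Ico _ hN]
    refine add_le_add ?_ le_rfl
    exact hXb P x
  have i2 : IntervalIntegrable (fun x => S N x ^ 2) volume s t := by
    have := mul_ii (hSm N) (hSm N) (hSb N) (hSb N) s t
    simp only [pow_two]
    exact this
  have h1 : ∫ x in s..t, (X N x) ^ 2 ≤ ∫ x in s..t, (2 * (P : ℝ) ^ 2 + 2 * (S N x) ^ 2) := by
    have i1 : IntervalIntegrable (fun x => X N x ^ 2) volume s t := by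
      have := mul_ii (hXm N) (hXm N) (A := N) (B := N)
        (fun x => by rw [abs_of_nonneg (hX0 N x)]; exact hXb N x)
        (fun x => by rw [abs_of_nonneg (hX0 N x)]; exact hXb N x) s t
      simp only [pow_two]
      exact this
    refine intervalIntegral.integral_mono_on hst.le i1
      (intervalIntegrable_const.add (i2.const_mul 2)) fun x _ => ?_
    have h2 := hXS x
    have h3 := hX0 N x
    have h4 := hS0 N x
    have hP0 : (0 : ℝ) ≤ P := Nat.cast_nonneg P
    nlinarith [sq_nonneg ((P : ℝ) - S N x)]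
  have e5 : ∫ x in s..t, 2 * S N x ^ 2 = 2 * ∫ x in s..t, S N x ^ 2 :=
    intervalIntegral.integral_const_mul _ _
  rw [intervalIntegral.integral_add intervalIntegrable_const (i2.const_mul 2),
    e5, intervalIntegral.integral_const, smul_eq_mul] at h1
  have h2 := hind N hN
  have hqb : ∀ n ∈ Finset.Ico P N, w n * r n + 2 * q n ≤
      (w n * r n) * (1 + 2 * (A ^ 2 * K0) + 4 * A * V N) := by
    intro n hn
    rw [Finset.mem_Ico] at hn
    have h3 := pair_bound hA hnear hK0 hP2 hr0 hw hw1 hr n hn.1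
    have h4 : q n = w n * ∑ m ∈ Finset.Ico P n,
        w m * (r m * (1 / (((n - m : ℕ) : ℝ) * Real.log n))) := by
      simp only [hq]
      rw [Finset.mul_sum]
      exact Finset.sum_congr rfl fun m _ => by ring
    have h5 : 2 * A * r n * V n ≤ 2 * A * r n * V N :=
      mul_le_mul_of_nonneg_left (hVmono n N hn.2.le) (by have := hr0 n; positivity)
    have h6 : q n ≤ w n * (A ^ 2 * K0 * r n + 2 * A * r n * V N) := by
      rw [h4]
      exact mul_le_mul_of_nonneg_left (h3.trans (by change _ + 2 * A * r n * V n ≤ _; linarith)) (hw n)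
    have h7 : w n * r n + 2 * (w n * (A ^ 2 * K0 * r n + 2 * A * r n * V N)) =
      (w n * r n) * (1 + 2 * (A ^ 2 * K0) + 4 * A * V N) := by ring
    linarith
  have h3 : ∑ n ∈ Finset.Ico P N, (w n * r n + 2 * q n) ≤
      V N * (1 + 2 * (A ^ 2 * K0) + 4 * A * V N) := by
    refine (Finset.sum_le_sum hqb).trans ?_
    rw [← Finset.sum_mul]
    refine mul_le_mul_of_nonneg_right ?_ (by positivity)
    refine Finset.sum_le_sum_of_subset_of_nonneg ?_ fun n _ _ => mul_nonneg (hw n) (hr0 n)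
    intro n hn
    rw [Finset.mem_Ico] at hn
    exact Finset.mem_range.2 hn.2
  have h4 : V N * (1 + 2 * (A ^ 2 * K0) + 4 * A * V N) ≤
      (1 + 2 * (A ^ 2 * K0) + 4 * A) * (V N) ^ 2 := by
    have hc : 0 ≤ 1 + 2 * (A ^ 2 * K0) := by positivity
    have h41 : V N ≤ V N ^ 2 := by nlinarith
    have h42 := mul_le_mul_of_nonneg_left h41 hc
    nlinarith
  have h5 : (P : ℝ) ^ 2 ≤ (V N) ^ 2 := pow_le_pow_left₀ (Nat.cast_nonneg P) hN2 2
  have h6 : K * (t - s) * ∑ n ∈ Finset.Ico P N, (w n * r n + 2 * q n) ≤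
      K * (t - s) * ((1 + 2 * (A ^ 2 * K0) + 4 * A) * (V N) ^ 2) :=
    mul_le_mul_of_nonneg_left (h3.trans h4) (by positivity)
  calc ∫ x in s..t, (X N x) ^ 2 ≤ (t - s) * (2 * (P : ℝ) ^ 2) +
        2 * ∫ x in s..t, (S N x) ^ 2 := h1
    _ ≤ (t - s) * (2 * (V N) ^ 2) +
        2 * (K * (t - s) * ((1 + 2 * (A ^ 2 * K0) + 4 * A) * (V N) ^ 2)) := by
        gcongr
        exact h2.trans h6
    _ = _ := by ring

open Classical in
/-- second moments of counts from pair bounds -/
theorem second_gen {K A : ℝ} (hK : 0 < K) (hA : 1 ≤ A) : ∃ K' : ℝ, 0 < K' ∧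
    ∀ (f : ℕ → ℝ → ℝ) (r : ℕ → ℝ) (S : Set ℕ) (s t : ℝ) (P : ℕ), s < t → 2 ≤ P →
    (∀ n, Measurable (f n)) → (∀ n x, 0 ≤ f n x) → (∀ n x, f n x ≤ 1) →
    (∀ n, 0 ≤ r n) → (∀ n, r n ≤ 2) →
    (∀ n ≥ P, r n ≤ A * (1 / ((n : ℝ) * Real.log n)) ∧ 1 / ((n : ℝ) * Real.log n) ≤ A * r n) →
    (∀ n ≥ P, ∫ x in s..t, f n x ≤ K * (t - s) * r n) →
    (∀ m n : ℕ, P ≤ m → m < n → ∫ x in s..t, f m x * f n x ≤
      K * (t - s) * (r m * (1 / (((n - m : ℕ) : ℝ) * Real.log n)))) →
    Tendsto (fun N : ℕ => ∑ n ∈ range N, if n ∈ S then r n else 0) atTop atTop →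
    ∀ᶠ N in atTop, ∫ x in Set.Ioc s t, (∑ n ∈ range N, if n ∈ S then f n x else 0) ^ 2 ≤
      K' * (t - s) * (∑ n ∈ range N, if n ∈ S then r n else 0) ^ 2 := by
  obtain ⟨K', hK', h⟩ := second_w hK hA
  refine ⟨K', hK', ?_⟩
  intro f r S s t P hst hP hfm hf0 hf1 hr0 hr2 hr hone hpair hV
  have e : ∀ (n : ℕ) (y : ℝ), (if n ∈ S then (1 : ℝ) else 0) * y = if n ∈ S then y else 0 := by
    intro n y
    split_ifs <;> simp
  have h1 := h f r (fun n => if n ∈ S then 1 else 0) s t P hst hP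
    (fun n => by split_ifs <;> norm_num) (fun n => by split_ifs <;> norm_num)
    hfm hf0 hf1 hr0 hr hone hpair (by simpa only [e] using hV)
  simpa only [e] using h1

end Pool.Agent.TH915.SH
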