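import Pool.Agent.TH915.SH.Pair
import Pool.Agent.TH915.SH.MeanLow
import Pool.Agent.TH915.SH.Low
import Pool.Agent.TH915.SH.Second
import Pool.Agent.TH915.SL.Law
import Pool.Agent.H295R3.Hoheisel

/-!
# Primes `n ^ n + ⌊x (n ^ n) ^ (1 - δ)⌋ + 1` (helper915)
-/

set_option autoImplicit false

namespace Pool.Agent.TH915.SH

open Filter Topology MeasureTheory Finset

open Pool.Agent.TH915.SL (St ind ind_nonneg ind_le_one St_meas bc ae_half bdd_ii)

open scoped Classical

/-- the events -/
noncomputable def fe (δ : ℝ) (n : ℕ) (x : ℝ) : ℝ := ev δ (n ^ n) x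

/-- the densities -/
noncomputable def re (n : ℕ) : ℝ := 1 / ((n : ℝ) * Real.log n)

lemma log_nn (n : ℕ) : Real.log ((n ^ n : ℕ) : ℝ) = (n : ℝ) * Real.log n := by
  push_cast
  rw [Real.log_pow]

lemma fe_nonneg (δ : ℝ) (n : ℕ) (x : ℝ) : 0 ≤ fe δ n x := ind_nonneg _ _

lemma fe_le_one (δ : ℝ) (n : ℕ) (x : ℝ) : fe δ n x ≤ 1 := ind_le_one _ _

lemma fe_meas (δ : ℝ) (n : ℕ) : Measurable (fe δ n) :=
  (St_meas _).comp (measurable_const.mul measurable_id)

lemma fe_ii (δ : ℝ) (n : ℕ) (s t : ℝ) : IntervalIntegrable (fe δ n) volume s t :=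
  bdd_ii (fe_meas δ n) (A := 1) (fun x => by
    rw [abs_of_nonneg (fe_nonneg δ n x)]; exact fe_le_one δ n x) s t

lemma re_nonneg (n : ℕ) : 0 ≤ re n := by
  unfold re
  have := Real.log_natCast_nonneg n
  positivity

lemma re_le_two (n : ℕ) : re n ≤ 2 := by
  unfold re
  rcases Nat.lt_or_ge n 2 with h | h
  · interval_cases n <;> simp
  · have h2 : (2 : ℝ) ≤ n := by exact_mod_cast h
    have h3 : Real.log 2 ≤ Real.log n := Real.log_le_log two_pos h2
    have h4 := Real.log_two_gt_d9
    rw [div_le_iff₀ (by nlinarith)]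
    nlinarith

lemma nn_ge (n : ℕ) : n ≤ n ^ n := by
  rcases Nat.eq_zero_or_pos n with rfl | h
  · simp
  · exact Nat.le_self_pow h.ne' n

/-- all bounds together -/
theorem bounds : ∃ δ η K : ℝ, 0 < δ ∧ δ < 1 ∧ 0 < η ∧ 0 < K ∧ ∀ s t : ℝ, 0 < s → s < t →
    ∃ P : ℕ, 2 ≤ P ∧ (∀ n ≥ P, η * (t - s) * re n ≤ ∫ x in s..t, fe δ n x) ∧
      (∀ n ≥ P, ∫ x in s..t, fe δ n x ≤ K * (t - s) * re n) ∧
      (∀ m n : ℕ, P ≤ m → m < n → ∫ x in s..t, fe δ m x * fe δ n x ≤
        K * (t - s) * (re m * (1 / (((n - m : ℕ) : ℝ) * Real.log n)))) := by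
  obtain ⟨δ, η, hδ, hδ1, hη, hlow⟩ := mean_low Pool.Agent.H295R3.D.hoheisel
  obtain ⟨K, hK, hup⟩ := upper hδ hδ1
  refine ⟨δ, η, K, hδ, hδ1, hη, hK, fun s t hs hst => ?_⟩
  have hts : 0 < t - s := by linarith
  obtain ⟨A1, hA1, h1⟩ := hlow s t hs hst
  obtain ⟨A2, hA2, h2⟩ := hup s t hs hst
  have hd : 0 < 1 - δ := by linarith
  have hlog : Tendsto (fun n : ℕ => Real.log (n : ℝ)) atTop atTop :=
    Real.tendsto_log_atTop.comp tendsto_natCast_atTop_atTop
  obtain ⟨n3, hn3⟩ := eventually_atTop.1 (hlog.eventually_ge_atTop (1 / (1 - δ)))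
  refine ⟨max (max A1 A2) (max n3 3), by have := le_max_right n3 3
                                         have := le_max_right (max A1 A2) (max n3 3)
                                         omega, fun n hn => ?_, fun n hn => ?_,
    fun m n hm hmn => ?_⟩
  · have h3 : A1 ≤ n ^ n := ((le_max_left _ _).trans ((le_max_left _ _).trans hn)).trans (nn_ge n)
    have h4 := h1 (n ^ n) h3
    rw [log_nn] at h4
    exact h4
  · have h3 : A2 ≤ n ^ n := ((le_max_right _ _).trans ((le_max_left _ _).trans hn)).trans (nn_ge n)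
    have h4 := (h2 (n ^ n) h3).1
    rw [log_nn] at h4
    exact h4
  · have h3 : A2 ≤ m ^ m := ((le_max_right _ _).trans ((le_max_left _ _).trans hm)).trans (nn_ge m)
    have hn3' : n3 ≤ n := ((le_max_left _ _).trans ((le_max_right _ _).trans hm)).trans hmn.le
    have hm3 : 3 ≤ m := (le_max_right _ _).trans ((le_max_right _ _).trans hm)
    have hln := hn3 n hn3'
    have hmr : (3 : ℝ) ≤ m := by exact_mod_cast hm3
    have hmn' : (m : ℝ) ≤ n := by exact_mod_cast hmn.le
    have hlm : 0 < Real.log m := Real.log_pos (by linarith)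
    have hln0 : 0 < Real.log n := Real.log_pos (by linarith)
    have hD : ((n - m : ℕ) : ℝ) * Real.log n ≤
        Real.log ((n ^ n : ℕ) : ℝ) - Real.log ((m ^ m : ℕ) : ℝ) := by
      rw [log_nn, log_nn, Nat.cast_sub hmn.le]
      have : (m : ℝ) * Real.log m ≤ m * Real.log n :=
        mul_le_mul_of_nonneg_left (Real.log_le_log (by linarith) hmn') (by linarith)
      linarith
    have h5 : (1 : ℝ) ≤ ((n - m : ℕ) : ℝ) := by
      have : 1 ≤ n - m := by omega
      exact_mod_cast this
    have h6 : Real.log n ≤ ((n - m : ℕ) : ℝ) * Real.log n := by nlinarith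
    have h7 := (h2 (m ^ m) h3).2 (n ^ n) (by linarith)
    refine h7.trans ?_
    have e1 : 1 / Real.log ((m ^ m : ℕ) : ℝ) = re m := by rw [log_nn]; rfl
    rw [e1]
    apply mul_le_mul_of_nonneg_left _ (by positivity)
    apply mul_le_mul_of_nonneg_left _ (re_nonneg m)
    exact one_div_le_one_div_of_le (by positivity) hD

/-- the weighted count -/
lemma sum_card (δ : ℝ) (S : Set ℕ) (N : ℕ) (x : ℝ) :
    (∑ n ∈ range N, if n ∈ S then fe δ n x else 0) =
      (((range N).filter (fun n => n ∈ S ∧
        (n ^ n + ⌊((n ^ n : ℕ) : ℝ) ^ (1 - δ) * x⌋₊ + 1).Prime)).card : ℝ) := by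
  rw [← Finset.sum_boole]
  refine Finset.sum_congr rfl fun n _ => ?_
  unfold fe ev St bA ind
  by_cases h1 : n ∈ S <;>
    by_cases h2 : (n ^ n + ⌊((n ^ n : ℕ) : ℝ) ^ (1 - δ) * x⌋₊ + 1).Prime <;> simp [h1, h2]

/-- **The dichotomy.** -/
theorem main : ∃ δ c : ℝ, 0 < δ ∧ δ < 1 ∧ 0 < c ∧
    (∀ S : Set ℕ, (¬ Summable fun n : ℕ => if n ∈ S then 1 / ((n : ℝ) * Real.log n) else 0) →
      ∀ᵐ x : ℝ, 0 < x → ∃ᶠ N : ℕ in atTop,
        c * (∑ n ∈ range N, if n ∈ S then 1 / ((n : ℝ) * Real.log n) else 0) <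
        (((range N).filter (fun n => n ∈ S ∧
          (n ^ n + ⌊((n ^ n : ℕ) : ℝ) ^ (1 - δ) * x⌋₊ + 1).Prime)).card : ℝ)) ∧
    (∀ S : Set ℕ, (Summable fun n : ℕ => if n ∈ S then 1 / ((n : ℝ) * Real.log n) else 0) →
      ∀ᵐ x : ℝ, 0 < x → {n : ℕ | n ∈ S ∧
        (n ^ n + ⌊((n ^ n : ℕ) : ℝ) ^ (1 - δ) * x⌋₊ + 1).Prime}.Finite) := by
  obtain ⟨δ, η, K, hδ, hδ1, hη, hK, hb⟩ := bounds
  obtain ⟨K', hK', hsec⟩ := second_gen hK (le_refl (1 : ℝ))
  refine ⟨δ, η / 4, hδ, hδ1, by positivity, fun S hS => ?_, fun S hS => ?_⟩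
  · have hV : Tendsto (fun N : ℕ => ∑ n ∈ range N, if n ∈ S then re n else 0) atTop atTop :=
      (not_summable_iff_tendsto_nat_atTop_of_nonneg (f := fun n => if n ∈ S then re n else 0)
        (fun n => by
          split_ifs
          · exact re_nonneg n
          · exact le_rfl)).1 hS
    set X : ℕ → ℝ → ℝ := fun N x => ∑ n ∈ range N, if n ∈ S then fe δ n x else 0 with hX
    set V : ℕ → ℝ := fun N => ∑ n ∈ range N, if n ∈ S then re n else 0 with hVd
    have hterm : ∀ n, Measurable (fun x => if n ∈ S then fe δ n x else 0) := by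
      intro n
      by_cases h : n ∈ S
      · simp only [h, if_true]; exact fe_meas δ n
      · simp only [h, if_false]; exact measurable_const
    have hXm : ∀ N, Measurable (X N) := fun N => Finset.measurable_fun_sum _ fun n _ => hterm n
    have hX0 : ∀ N x, 0 ≤ X N x := fun N x => Finset.sum_nonneg fun n _ => by
      split_ifs
      · exact fe_nonneg δ n x
      · exact le_rfl
    have hXb : ∀ N, ∃ M, ∀ x, X N x ≤ M := by
      intro N
      refine ⟨N, fun x => ?_⟩
      calc X N x ≤ ∑ _n ∈ range N, (1 : ℝ) := Finset.sum_le_sum fun n _ => by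
            split_ifs
            · exact fe_le_one δ n x
            · exact zero_le_one
        _ = N := by simp
    have hmean : ∀ s t : ℝ, 0 < s → s < t →
        ∀ᶠ N in atTop, η / 2 * (t - s) * V N ≤ ∫ x in Set.Ioc s t, X N x := by
      intro s t hs hst
      have hts : 0 < t - s := by linarith
      obtain ⟨P, hP2, hPl, hPu, hPp⟩ := hb s t hs hst
      filter_upwards [eventually_ge_atTop P, hV.eventually_ge_atTop (2 * V P)] with N hN hN2
      rw [← intervalIntegral.integral_of_le hst.le]
      have e1 : ∫ x in s..t, X N x =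
          ∑ n ∈ range N, if n ∈ S then (∫ x in s..t, fe δ n x) else 0 := by
        simp only [hX]
        rw [intervalIntegral.integral_finsetSum fun n _ =>
          bdd_ii (hterm n) (A := 1) (fun x => by
            split_ifs
            · rw [abs_of_nonneg (fe_nonneg δ n x)]; exact fe_le_one δ n x
            · simp) s t]
        refine Finset.sum_congr rfl fun n _ => ?_
        by_cases h : n ∈ S <;> simp [h]
      rw [e1, ← Finset.sum_range_add_sum_Ico _ hN]
      have h1 : 0 ≤ ∑ n ∈ range P, if n ∈ S then (∫ x in s..t, fe δ n x) else 0 :=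
        Finset.sum_nonneg fun n _ => by
          split_ifs
          · exact intervalIntegral.integral_nonneg hst.le fun x _ => fe_nonneg δ n x
          · exact le_rfl
      have h2 : η * (t - s) * ∑ n ∈ Finset.Ico P N, (if n ∈ S then re n else 0) ≤
          ∑ n ∈ Finset.Ico P N, if n ∈ S then (∫ x in s..t, fe δ n x) else 0 := by
        rw [Finset.mul_sum]
        refine Finset.sum_le_sum fun n hn => ?_
        rw [Finset.mem_Ico] at hn
        split_ifs
        · exact hPl n hn.1
        · simp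
      have h3 : V N = V P + ∑ n ∈ Finset.Ico P N, (if n ∈ S then re n else 0) := by
        simp only [hVd]
        rw [Finset.sum_range_add_sum_Ico _ hN]
      have h4 : V N / 2 ≤ ∑ n ∈ Finset.Ico P N, (if n ∈ S then re n else 0) := by linarith
      have h5 : η * (t - s) * (V N / 2) ≤
          η * (t - s) * ∑ n ∈ Finset.Ico P N, (if n ∈ S then re n else 0) :=
        mul_le_mul_of_nonneg_left h4 (by positivity)
      calc η / 2 * (t - s) * V N = η * (t - s) * (V N / 2) := by ring
        _ ≤ _ := by linarith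
    have hsec' : ∀ s t : ℝ, 0 < s → s < t → ∀ᶠ N in atTop,
        ∫ x in Set.Ioc s t, (X N x) ^ 2 ≤ K' * (t - s) * (V N) ^ 2 := by
      intro s t hs hst
      obtain ⟨P, hP2, hPl, hPu, hPp⟩ := hb s t hs hst
      exact hsec (fe δ) re S s t P hst hP2 (fe_meas δ) (fe_nonneg δ) (fe_le_one δ) re_nonneg
        re_le_two (fun n _ => ⟨by rw [one_mul]; exact le_rfl, by rw [one_mul]; exact le_rfl⟩)
        hPu hPp hV
    have h1 : ∀ b : ℕ, ∀ᵐ x : ℝ, x ∈ Set.Ioo (0 : ℝ) b → ∀ c : ℝ, c < η / 2 →
        ∃ᶠ N in atTop, c * V N < X N x := fun b =>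
      low_law (X := X) (V := V) (b0 := 0) (b1 := b) (L := η / 2) (K := K') hV hXm hX0 hXb
        (fun s t hs hst _ => hmean s t hs hst) (by positivity) hK'
        (fun s t hs hst _ => hsec' s t hs hst)
    filter_upwards [ae_all_iff.2 h1] with x hx hx0
    obtain ⟨b, hb'⟩ := exists_nat_gt x
    have h2 := hx b ⟨hx0, hb'⟩ (η / 4) (by linarith)
    refine h2.mono fun N hN => ?_
    rw [← sum_card]
    exact hN
  · refine ae_half fun s t hs hst => ?_
    have hts : 0 < t - s := by linarith
    obtain ⟨P, hP2, hPl, hPu, hPp⟩ := hb s t hs hst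
    have hres := (ae_restrict_iff' measurableSet_Ioc).1
      (bc (s := s) (t := t) (E := fun n => {x | n ∈ S ∧ fe δ n x = 1})
        (fun n => K * (t - s) * (if n ∈ S then 1 / ((n : ℝ) * Real.log n) else 0))
        (hS.mul_left _) (by
          filter_upwards [eventually_ge_atTop P] with n hn
          by_cases h : n ∈ S
          · have e : {x | n ∈ S ∧ fe δ n x = 1} = {x | fe δ n x = 1} := by
              ext x; simp [h]
            rw [e, if_pos h]
            have hm : MeasurableSet {x | fe δ n x = 1} := fe_meas δ n (measurableSet_singleton 1)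
            have e2 : (volume.restrict (Set.Ioc s t)).real {x | fe δ n x = 1} =
                ∫ x in s..t, fe δ n x := by
              rw [intervalIntegral.integral_of_le hst.le]
              have e : ∀ x, fe δ n x = Set.indicator {x | fe δ n x = 1} (fun _ => (1 : ℝ)) x := by
                intro x
                by_cases h : fe δ n x = 1
                · rw [Set.indicator_of_mem (by exact h), h]
                · rw [Set.indicator_of_notMem (by exact h)]
                  unfold fe ev St bA ind at h ⊢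
                  split_ifs at h ⊢ with h1
                  · exact absurd rfl h
                  · rfl
              conv_rhs => enter [2, x]; rw [e x]
              rw [integral_indicator_const _ hm]
              simp
            rw [e2]
            exact hPu n hn
          · have e : {x | n ∈ S ∧ fe δ n x = 1} = ∅ := by
              ext x; simp [h]
            rw [e, if_neg h]
            simp))
    filter_upwards [hres] with x hx hx0
    obtain ⟨n0, hn0⟩ := eventually_atTop.1 (hx hx0)
    refine (Set.finite_Iio n0).subset fun n hn => ?_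
    by_contra hcon
    have h1 : n0 ≤ n := not_lt.1 hcon
    refine hn0 n h1 ⟨hn.1, ?_⟩
    unfold fe ev St bA ind
    rw [if_pos hn.2]

end Pool.Agent.TH915.SH
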