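import Pool.Agent.TH915.SL.Est

/-!
# Upper bounds for the events `A + ⌊A ^ (1 - δ) x⌋ + 1` prime (helper915)
-/

set_option autoImplicit false

namespace Pool.Agent.TH915.SH

open Filter Topology MeasureTheory Finset

open Pool.Agent.TH915.SL (St ind ind_nonneg ind_le_one Sh St_nat St_mono sc_int cells)

open scoped Classical

/-- the indicator of the primes after `A` -/
noncomputable def bA (A : ℕ) (k : ℕ) : ℝ := ind (fun k => k + 1) (A + k)

lemma bA_nonneg (A k : ℕ) : 0 ≤ bA A k := ind_nonneg _ _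

lemma sh1 : Sh (fun k => k + 1) := Or.inl fun _ => rfl

/-- Brun-Titchmarsh with an offset -/
theorem bt_off : ∃ C : ℝ, 1 ≤ C ∧ ∀ (A : ℕ) (u v : ℝ), 0 ≤ u → 2 ≤ v - u →
    ∑ k ∈ Finset.Ico ⌊u⌋₊ ⌈v⌉₊, bA A k ≤ C * (v - u) / Real.log (v - u) ∧
    ∫ y in u..v, St (bA A) y ≤ C * (v - u) / Real.log (v - u) := by
  obtain ⟨C, hC, h⟩ := Pool.Agent.TH915.SL.bt_sum sh1
  refine ⟨2 * C, by linarith, fun A u v hu huv => ?_⟩
  have hv0 : 0 ≤ v := by linarith
  have f1 := Nat.floor_le hu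
  have f2 := Nat.le_ceil v
  have f3 := Nat.ceil_lt_add_one hv0
  have f4 := Nat.lt_floor_add_one u
  have hab : ⌊u⌋₊ + 2 ≤ ⌈v⌉₊ := by
    have : ((⌊u⌋₊ + 2 : ℕ) : ℝ) ≤ (⌈v⌉₊ : ℝ) := by push_cast; linarith
    exact_mod_cast this
  have h1 := h (⌊u⌋₊ + A) (⌈v⌉₊ + A) (by omega)
  rw [← Finset.sum_Ico_add (fun k => ind (fun k => k + 1) k) ⌊u⌋₊ ⌈v⌉₊ A,
    show ⌈v⌉₊ + A - (⌊u⌋₊ + A) = ⌈v⌉₊ - ⌊u⌋₊ by omega, Nat.cast_sub (by omega)] at h1
  set N : ℝ := (⌈v⌉₊ : ℝ) - (⌊u⌋₊ : ℝ) with hN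
  have hN1 : v - u ≤ N := by rw [hN]; linarith
  have hN2 : N ≤ 2 * (v - u) := by rw [hN]; linarith
  have hl : 0 < Real.log (v - u) := Real.log_pos (by linarith)
  have hl2 : Real.log (v - u) ≤ Real.log N := Real.log_le_log (by linarith) hN1
  have h2 : C * N / Real.log N ≤ 2 * C * (v - u) / Real.log (v - u) := by
    apply div_le_div₀
    · have : 0 ≤ v - u := by linarith
      positivity
    · nlinarith
    · exact hl
    · exact hl2
  have h3 : ∑ k ∈ Finset.Ico ⌊u⌋₊ ⌈v⌉₊, bA A k ≤ 2 * C * (v - u) / Real.log (v - u) := h1.trans h2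
  refine ⟨h3, ?_⟩
  calc ∫ y in u..v, St (bA A) y ≤ ∫ y in (⌊u⌋₊ : ℝ)..(⌈v⌉₊ : ℝ), St (bA A) y :=
        St_mono (bA_nonneg A) f1 (by linarith) f2
    _ = _ := St_nat _ (by omega)
    _ ≤ _ := h3

/-- the events -/
noncomputable def ev (δ : ℝ) (A : ℕ) (x : ℝ) : ℝ := St (bA A) ((A : ℝ) ^ (1 - δ) * x)

/-- single events and pairs -/
theorem upper {δ : ℝ} (_hδ : 0 < δ) (hδ1 : δ < 1) : ∃ K : ℝ, 0 < K ∧ ∀ s t : ℝ, 0 < s → s < t →
    ∃ A0 : ℕ, 2 ≤ A0 ∧ ∀ A : ℕ, A0 ≤ A →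
      ∫ x in s..t, ev δ A x ≤ K * (t - s) * (1 / Real.log A) ∧
      ∀ A' : ℕ, Real.log A + 1 / (1 - δ) ≤ Real.log A' →
        ∫ x in s..t, ev δ A x * ev δ A' x ≤
          K * (t - s) * (1 / Real.log A * (1 / (Real.log A' - Real.log A))) := by
  obtain ⟨C, hC, hbt⟩ := bt_off
  have hd : 0 < 1 - δ := by linarith
  refine ⟨2 * C / (1 - δ) + 2 * C ^ 2 / (1 - δ) ^ 2, by positivity, fun s t hs hst => ?_⟩
  have hts : 0 < t - s := by linarith
  have hev : ∀ᶠ A : ℕ in atTop, 2 ≤ A ∧ 2 ≤ (A : ℝ) ^ (1 - δ) * (t - s) ∧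
      (1 - δ) / 2 * Real.log A ≤ Real.log ((A : ℝ) ^ (1 - δ) * (t - s)) := by
    have h1 : Tendsto (fun A : ℕ => (A : ℝ) ^ (1 - δ) * (t - s)) atTop atTop :=
      ((tendsto_rpow_atTop hd).comp tendsto_natCast_atTop_atTop).atTop_mul_const hts
    have h2 : Tendsto (fun A : ℕ => (1 - δ) / 2 * Real.log (A : ℝ)) atTop atTop :=
      (Real.tendsto_log_atTop.comp tendsto_natCast_atTop_atTop).const_mul_atTop (by positivity)
    filter_upwards [eventually_ge_atTop 2, h1.eventually_ge_atTop 2,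
      h2.eventually_ge_atTop (-Real.log (t - s))] with A a1 a2 a3
    refine ⟨a1, a2, ?_⟩
    have hA : (0 : ℝ) < A := by exact_mod_cast (by omega : 0 < A)
    rw [Real.log_mul (Real.rpow_pos_of_pos hA _).ne' hts.ne', Real.log_rpow hA]
    linarith
  obtain ⟨A0, hA0⟩ := eventually_atTop.1 hev
  refine ⟨max A0 2, le_max_right _ _, fun A hA => ?_⟩
  obtain ⟨a1, a2, a3⟩ := hA0 A ((le_max_left _ _).trans hA)
  have hAr : (2 : ℝ) ≤ A := by exact_mod_cast a1
  have hAp : (0 : ℝ) < A := by linarith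
  have hlA : 0 < Real.log A := Real.log_pos (by linarith)
  set σ := (A : ℝ) ^ (1 - δ) with hσd
  have hσ : 0 < σ := Real.rpow_pos_of_pos hAp _
  have hσts : σ * t - σ * s = σ * (t - s) := by ring
  obtain ⟨b1, b2⟩ := hbt A (σ * s) (σ * t) (by positivity) (by rw [hσts]; exact a2)
  rw [hσts] at b1 b2
  have hB : C * (σ * (t - s)) / Real.log (σ * (t - s)) ≤
      σ * (2 * C / (1 - δ) * (t - s) * (1 / Real.log A)) := by
    calc C * (σ * (t - s)) / Real.log (σ * (t - s)) ≤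
        C * (σ * (t - s)) / ((1 - δ) / 2 * Real.log A) :=
          div_le_div_of_nonneg_left (by positivity) (by positivity) a3
      _ = _ := by field_simp
  constructor
  · unfold ev
    rw [← hσd, sc_int _ hσ]
    calc σ⁻¹ * ∫ y in (σ * s)..(σ * t), St (bA A) y ≤
        σ⁻¹ * (σ * (2 * C / (1 - δ) * (t - s) * (1 / Real.log A))) :=
          mul_le_mul_of_nonneg_left (b2.trans hB) (inv_pos.2 hσ).le
      _ = 2 * C / (1 - δ) * (t - s) * (1 / Real.log A) := by field_simp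
      _ ≤ _ := by
          have : 0 ≤ 2 * C ^ 2 / (1 - δ) ^ 2 := by positivity
          gcongr
          linarith
  · intro A' hA'
    have hdd : 0 < 1 / (1 - δ) := by positivity
    have hA'0 : (0 : ℝ) < A' := by
      rcases Nat.eq_zero_or_pos A' with h | h
      · rw [h] at hA'
        simp only [Nat.cast_zero, Real.log_zero] at hA'
        linarith
      · exact_mod_cast h
    set D := Real.log A' - Real.log A with hD
    have hD1 : 1 / (1 - δ) ≤ D := by rw [hD]; linarith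
    have hD0 : 0 < D := by linarith
    have hlD : 1 ≤ (1 - δ) * D := by
      rw [div_le_iff₀ hd] at hD1; linarith
    set θ := Real.exp ((1 - δ) * D) with hθd
    have hθ : 0 < θ := Real.exp_pos _
    have hθ2 : 2 ≤ θ := by
      have := Real.add_one_le_exp ((1 - δ) * D)
      linarith
    have hlθ : Real.log θ = (1 - δ) * D := Real.log_exp _
    have hσθ : (A' : ℝ) ^ (1 - δ) = θ * σ := by
      rw [hθd, hσd, Real.rpow_def_of_pos hA'0, Real.rpow_def_of_pos hAp, ← Real.exp_add, hD]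
      ring_nf
    have e1 : ∫ x in s..t, ev δ A x * ev δ A' x =
        σ⁻¹ * ∫ y in (σ * s)..(σ * t), St (bA A) y * St (bA A') (θ * y) := by
      have e2 : ∀ x, ev δ A x * ev δ A' x = (fun y => St (bA A) y * St (bA A') (θ * y)) (σ * x) := by
        intro x
        show St (bA A) ((A : ℝ) ^ (1 - δ) * x) * St (bA A') ((A' : ℝ) ^ (1 - δ) * x) =
          St (bA A) (σ * x) * St (bA A') (θ * (σ * x))
        rw [hσθ, ← hσd, mul_assoc]
      simp only [e2]
      rw [intervalIntegral.integral_comp_mul_left (fun y => St (bA A) y * St (bA A') (θ * y)) hσ.ne',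
        smul_eq_mul]
    have hcell := cells (bA_nonneg A) (bA_nonneg A') hθ (show 0 ≤ σ * s by positivity)
      (mul_le_mul_of_nonneg_left hst.le hσ.le)
    have h3 : ∀ k : ℕ, θ⁻¹ * ∫ y in (θ * (k : ℝ))..(θ * ((k + 1 : ℕ) : ℝ)), St (bA A') y ≤
        C / ((1 - δ) * D) := by
      intro k
      have hk : θ * ((k + 1 : ℕ) : ℝ) - θ * k = θ := by push_cast; ring
      obtain ⟨_, c2⟩ := hbt A' (θ * k) (θ * ((k + 1 : ℕ) : ℝ)) (by positivity)
        (by rw [hk]; exact hθ2)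
      rw [hk, hlθ] at c2
      calc θ⁻¹ * ∫ y in (θ * k)..(θ * ((k + 1 : ℕ) : ℝ)), St (bA A') y ≤
          θ⁻¹ * (C * θ / ((1 - δ) * D)) := mul_le_mul_of_nonneg_left c2 (by positivity)
        _ = C / ((1 - δ) * D) := by field_simp
    rw [e1]
    have h4 : ∫ y in (σ * s)..(σ * t), St (bA A) y * St (bA A') (θ * y) ≤
        σ * (2 * C / (1 - δ) * (t - s) * (1 / Real.log A)) * (C / ((1 - δ) * D)) := by
      refine hcell.trans ?_
      calc _ ≤ ∑ k ∈ Finset.Ico ⌊σ * s⌋₊ ⌈σ * t⌉₊, bA A k * (C / ((1 - δ) * D)) :=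
            Finset.sum_le_sum fun k _ => mul_le_mul_of_nonneg_left (h3 k) (bA_nonneg A k)
        _ = (∑ k ∈ Finset.Ico ⌊σ * s⌋₊ ⌈σ * t⌉₊, bA A k) * (C / ((1 - δ) * D)) := by
            rw [Finset.sum_mul]
        _ ≤ _ := mul_le_mul_of_nonneg_right (b1.trans hB) (by positivity)
    calc σ⁻¹ * ∫ y in (σ * s)..(σ * t), St (bA A) y * St (bA A') (θ * y) ≤
        σ⁻¹ * (σ * (2 * C / (1 - δ) * (t - s) * (1 / Real.log A)) * (C / ((1 - δ) * D))) :=
          mul_le_mul_of_nonneg_left h4 (inv_pos.2 hσ).le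
      _ = (2 * C ^ 2 / (1 - δ) ^ 2) * (t - s) * (1 / Real.log A * (1 / D)) := by
          field_simp
      _ ≤ _ := by
          have h5 : 0 ≤ 2 * C / (1 - δ) := by positivity
          gcongr
          linarith

end Pool.Agent.TH915.SH
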